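import Pool.Agent.H983R2.ONJ.Model
import Pool.Agent.H983R2.ONJ.Fin
import Pool.Agent.H983R2.ONJ.Gib2

/-!
# Mass gap of the two-dimensional N-vector models, N ≥ 3, for every temperature and every
exponentially decaying ferromagnetic coupling

The proof follows helper717's proof for the nearest neighbour coupling (non-abelian point
splitting, Bessel inequality over many scales, Edwards-Sokal finite size criterion).
-/

set_option autoImplicit false

noncomputable section

namespace Pool.Agent.Results.MP_8be4c0_mp.MassGap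

open MeasureTheory Pool.Agent.H5R2.ON Pool.Agent.H717R2.ON3 Pool.Agent.H983R2.ONJ

/-- the couplings between different sites -/
def cJ (L : ℕ) [NeZero L] (J : ℤ × ℤ → ℝ) (β : ℝ) (e : Tor L × Tor L) : ℝ :=
  if e.1 = e.2 then 0 else β * Jper L J (e.1 - e.2)

theorem inner_self_one {N : ℕ} (s : Sph N) : inner ℝ (s : EuclideanSpace ℝ (Fin N)) s = (1 : ℝ) := by
  rw [real_inner_self_eq_norm_sq]
  have : ‖(s : EuclideanSpace ℝ (Fin N))‖ = 1 := by simp
  rw [this, one_pow]

theorem en_eq {N : ℕ} (L : ℕ) [NeZero L] (J : ℤ × ℤ → ℝ) (β : ℝ) (S : Conf N L) :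
    β * enJ L J S = pS (cJ L J β) S + ∑ _x : Tor L, β * Jper L J 0 := by
  unfold enJ pS
  have hsp : ∑ e : Tor L × Tor L, cJ L J β e *
      inner ℝ (S e.1 : EuclideanSpace ℝ (Fin N)) (S e.2) = ∑ x : Tor L, ∑ y : Tor L,
        cJ L J β (x, y) * inner ℝ (S x : EuclideanSpace ℝ (Fin N)) (S y) :=
    Fintype.sum_prod_type _
  rw [hsp, Finset.mul_sum, ← Finset.sum_add_distrib]
  refine Finset.sum_congr rfl fun x _ => ?_
  have h : ∀ y : Tor L, β * (Jper L J (x - y) * inner ℝ (S x : EuclideanSpace ℝ (Fin N)) (S y))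
      = cJ L J β (x, y) * inner ℝ (S x : EuclideanSpace ℝ (Fin N)) (S y)
        + if x = y then β * Jper L J 0 else 0 := by
    intro y
    unfold cJ
    by_cases hxy : x = y
    · subst hxy
      simp only [if_true, zero_mul, zero_add, sub_self]
      rw [inner_self_one, mul_one]
    · simp only [if_neg hxy, add_zero]
      ring
  rw [Finset.mul_sum, Finset.sum_congr rfl fun y _ => h y, Finset.sum_add_distrib,
    Finset.sum_ite_eq]
  simp

theorem corr_eq (N L : ℕ) [NeZero L] (J : ℤ × ℤ → ℝ) (β : ℝ) (x y : Tor L) :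
    corr N L J β x y =
      (∫ S : Conf N L, inner ℝ (S x : EuclideanSpace ℝ (Fin N)) (S y) *
          Real.exp (pS (cJ L J β) S) ∂(prior N L)) /
        ∫ S : Conf N L, Real.exp (pS (cJ L J β) S) ∂(prior N L) := by
  unfold corr gibbs
  set κ : ℝ := ∑ _x : Tor L, β * Jper L J 0
  simp only [en_eq, Real.exp_add]
  have h1 : (fun S : Conf N L => inner ℝ (S x : EuclideanSpace ℝ (Fin N)) (S y) *
      (Real.exp (pS (cJ L J β) S) * Real.exp κ)) = fun S : Conf N L =>
      (inner ℝ (S x : EuclideanSpace ℝ (Fin N)) (S y) *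
        Real.exp (pS (cJ L J β) S)) * Real.exp κ := by
    funext S; ring
  rw [h1, integral_mul_const, integral_mul_const,
    mul_div_mul_right _ _ (Real.exp_pos _).ne']

/-- **Mass gap.** Let `N ≥ 3`, let `J` be any ferromagnetic, exponentially decaying coupling on
`ℤ²` and let `β > 0`. Then the spin correlations decay exponentially, uniformly in the size of
the torus, and the same bound holds for every infinite volume limit; the susceptibility of every
such limit is finite and its mass is at least `m > 0`. -/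
theorem result (N : ℕ) (hN : 3 ≤ N) (J : ℤ × ℤ → ℝ) (hJ : Admissible J) (β : ℝ) (hβ : 0 < β) :
    ∃ C m : ℝ, 0 < C ∧ 0 < m ∧
      (∀ (L : ℕ) [NeZero L] (x y : Tor L), |corr N L J β x y| ≤ C * Real.exp (-m * tnorm (x - y)))
      ∧ ∀ G : ℤ × ℤ → ℝ, IsLimitCorr N J β G →
        (∀ x, |G x| ≤ C * Real.exp (-m * znorm x)) ∧ Summable G ∧
        ∀ μ : ℝ, (∀ n : ℕ, 0 < G (n, 0)) →
          Filter.Tendsto (fun n : ℕ => -(1 / (n : ℝ)) * Real.log (G (n, 0))) Filter.atTop
            (nhds μ) → m ≤ μ := by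
  obtain ⟨A, a, ha, hJd⟩ := hJ.decay
  obtain ⟨A', hA', hper⟩ := Jper_le ha hJd
  obtain ⟨C, b, hC, hb, hdec⟩ := torusJ_decay N hN (β * A') (a / 2) (by positivity) (by linarith)
  have htor : ∀ (L : ℕ) [NeZero L] (x y : Tor L),
      |corr N L J β x y| ≤ C * Real.exp (-b * tnorm (x - y)) := by
    intro L _ x y
    rw [corr_eq]
    refine hdec L (cJ L J β) ?_ x y
    intro e
    unfold cJ
    split_ifs with h
    · exact ⟨le_rfl, mul_nonneg (by positivity) (Real.exp_pos _).le⟩
    · refine ⟨mul_nonneg hβ.le (Jper_nonneg hJ.nonneg (sub_ne_zero.2 h)), ?_⟩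
      rw [mul_assoc, tnorm_sub_comm]
      exact mul_le_mul_of_nonneg_left (hper L _) hβ.le
  refine ⟨C, b, hC, hb, htor, ?_⟩
  intro G hG
  obtain ⟨l, hl, hlim⟩ := hG
  have hbound : ∀ x, |G x| ≤ C * Real.exp (-b * znorm x) := by
    intro x
    refine le_of_tendsto (hlim x).abs ?_
    filter_upwards [hl.eventually_ge_atTop (2 * (x.1.natAbs + x.2.natAbs))] with n hn
    refine (htor (l n + 1) _ _).trans (le_of_eq ?_)
    congr 2
    rw [zero_sub, tnorm_neg]
    have h1 : |x.1| * 2 < ((l n + 1 : ℕ) : ℤ) := by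
      have : (|x.1| : ℤ) = x.1.natAbs := (Int.natCast_natAbs x.1).symm
      rw [this]; push_cast; omega
    have h2 : |x.2| * 2 < ((l n + 1 : ℕ) : ℤ) := by
      have : (|x.2| : ℤ) = x.2.natAbs := (Int.natCast_natAbs x.2).symm
      rw [this]; push_cast; omega
    have := tnorm_cast (L := l n + 1) x.1 x.2 (by exact_mod_cast h1) (by exact_mod_cast h2)
    rw [this]
    rfl
  refine ⟨hbound, ?_, ?_⟩
  · refine Summable.of_norm_bounded (g := fun x => C * Real.exp (-b * znorm x))
      ((summable_exp_znorm b hb).mul_left C) fun x => ?_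
    rw [Real.norm_eq_abs]
    exact hbound x
  · intro μ hpos hμ
    have hlow : ∀ᶠ n : ℕ in Filter.atTop, b - Real.log C / n ≤
        -(1 / (n : ℝ)) * Real.log (G (n, 0)) := by
      filter_upwards [Filter.eventually_gt_atTop 0] with n hn
      have hn' : (0 : ℝ) < n := by exact_mod_cast hn
      have h1 := hbound (n, 0)
      rw [abs_of_pos (hpos n)] at h1
      have h2 : znorm ((n : ℤ), (0 : ℤ)) = n := by
        unfold znorm
        simp
      rw [h2] at h1
      have h3 : Real.log (G (n, 0)) ≤ Real.log C + -b * n := by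
        have := Real.log_le_log (hpos n) h1
        rw [Real.log_mul hC.ne' (Real.exp_pos _).ne', Real.log_exp] at this
        exact this
      have h4 : b - Real.log C / n = -(1 / (n : ℝ)) * (Real.log C + -b * n) := by
        field_simp
        ring
      rw [h4]
      have h5 : (0 : ℝ) < 1 / n := by positivity
      nlinarith
    have hlim2 : Filter.Tendsto (fun n : ℕ => b - Real.log C / (n : ℝ)) Filter.atTop
        (nhds (b - 0)) :=
      tendsto_const_nhds.sub (tendsto_const_div_atTop_nhds_zero_nat _)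
    rw [sub_zero] at hlim2
    exact le_of_tendsto_of_tendsto hlim2 hμ hlow

end Pool.Agent.Results.MP_8be4c0_mp.MassGap
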